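import Pool.Agent.W913.HC.Index

/-! Every `C ⊆ X²` is the trace on `X²` of the set of cut characters of a 2-homogeneous dense
chain. -/

namespace Pool.Agent.Results.MP_e86704_lc.EverySetRealizable

open Cardinal Set Ordinal
open Pool.Agent.W913

universe u

/-- `(A, B)` is a cut of the chain `T`: both parts are nonempty, `A` lies below `B`, `A` has no
largest element, `B` has no smallest element, and `T` is `A ∪ B` or `A ∪ {r} ∪ B` for a single
element `r` lying between `A` and `B`. -/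
structure IsCut {T : Type u} [LinearOrder T] (A B : Set T) : Prop where
  left_nonempty : A.Nonempty
  right_nonempty : B.Nonempty
  lt : ∀ a ∈ A, ∀ b ∈ B, a < b
  no_max : ∀ a ∈ A, ∃ a' ∈ A, a < a'
  no_min : ∀ b ∈ B, ∃ b' ∈ B, b' < b
  cover : A ∪ B = Set.univ ∨
    ∃ r : T, (∀ a ∈ A, a < r) ∧ (∀ b ∈ B, r < b) ∧ A ∪ {r} ∪ B = Set.univ

/-- The set of characters of all cuts of `T`: the pairs `(α, β)` of ordinals such that some cut
`(A, B)` of `T` has cofinality of `A` equal to `ℵ_ α` and coinitiality of `B` equal to `ℵ_ β`. -/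
def cutCharacters (T : Type u) [LinearOrder T] : Set (Ordinal.{u} × Ordinal.{u}) :=
  {p | ∃ A B : Set T, IsCut A B ∧ Order.cof A = ℵ_ p.1 ∧ Order.cof (OrderDual B) = ℵ_ p.2}

/-- Any two nondegenerate closed bounded intervals of `T` are order-isomorphic. -/
def TwoHomogeneous (T : Type u) [LinearOrder T] : Prop :=
  ∀ a b c d : T, a < b → c < d → Nonempty (Set.Icc a b ≃o Set.Icc c d)

/-- `C` is realizable with respect to `X`: some 2-homogeneous dense chain `T` (with at least two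
points) satisfies `C(T) ∩ X² = C`. -/
def Realizable (X : Set Ordinal.{u}) (C : Set (Ordinal.{u} × Ordinal.{u})) : Prop :=
  ∃ (T : Type u) (_ : LinearOrder T), Nontrivial T ∧ DenselyOrdered T ∧ TwoHomogeneous T ∧
    cutCharacters T ∩ X ×ˢ X = C

theorem alephInj {a b : Ordinal.{u}} (h : ℵ_ a = ℵ_ b) : a = b := aleph.injective h

/-- the code of a pair -/
noncomputable def code (p : Ordinal.{u} × Ordinal.{u}) : Ordinal.{u} := ω ^ (ω_ p.2 * (p.1 + 1))

theorem exp_ne (p : Ordinal.{u} × Ordinal.{u}) : (ω_ p.2 * (p.1 + 1)) ≠ 0 :=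
  mul_ne_zero (omega_pos _).ne' (by simp)

theorem code_ne (p : Ordinal.{u} × Ordinal.{u}) : code p ≠ 0 :=
  opow_ne_zero _ omega0_ne_zero

theorem cof_code {p : Ordinal.{u} × Ordinal.{u}} (hp : (ℵ_ p.2).IsRegular) :
    (code p).cof = ℵ_ p.2 := by
  have h1 : ω_ p.2 * (p.1 + 1) = ω_ p.2 * p.1 + ω_ p.2 := by
    rw [mul_add, mul_one]
  have hl : Order.IsSuccLimit (ω_ p.2 * (p.1 + 1)) :=
    isSuccLimit_mul_left (isSuccLimit_omega _) (by simp)
  rw [code, Ordinal.cof_map_of_isNormal (isNormal_opow one_lt_omega0) hl, h1,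
    Ordinal.cof_add _ (omega_pos _).ne', hp.cof_omega_eq]

theorem code_inj {p q : Ordinal.{u} × Ordinal.{u}} (hp : (ℵ_ p.2).IsRegular)
    (hq : (ℵ_ q.2).IsRegular) (h : code p = code q) : p = q := by
  have h1 : ℵ_ p.2 = ℵ_ q.2 := by rw [← cof_code hp, ← cof_code hq, h]
  have h2 : p.2 = q.2 := alephInj h1
  rw [code, code, opow_right_inj one_lt_omega0, h2] at h
  have h3 : p.1 + 1 = q.1 + 1 := mul_left_cancel₀ (omega_pos _).ne' h
  have h4 : p.1 = q.1 := by simpa using h3
  exact Prod.ext h4 h2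

section main

variable (X : Set Ordinal.{u}) (C : Set (Ordinal.{u} × Ordinal.{u}))

theorem main (hX : BddAbove X) (hreg : ∀ x ∈ X, (ℵ_ x).IsRegular) (hC : C ⊆ X ×ˢ X) :
    Realizable X C := by
  classical
  obtain ⟨μ, hμ⟩ := hX
  set κ : Cardinal.{u} := Order.succ (max (ℵ_ μ) (code (μ, μ)).card) with hκ
  have hκreg : κ.IsRegular := isRegular_succ ((aleph0_le_aleph μ).trans (le_max_left _ _))
  have hcofΛ : Order.cof κ.ord.ToType = κ := by rw [Ordinal.cof_toType, hκreg.cof_ord]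
  have hreg' : IsRegularCardinalOrder κ.ord.ToType :=
    ⟨by rw [type_toType, hcofΛ]⟩
  have hnomax : NoMaxOrder κ.ord.ToType := by
    rw [← isSuccPrelimit_type_lt_iff, type_toType]
    exact (isSuccLimit_ord hκreg.1).isSuccPrelimit
  have hne : Nonempty κ.ord.ToType := by
    rw [← mk_ne_zero_iff]
    simpa using hκreg.ne_zero
  let Λ : Type u := κ.ord.ToType
  have hlt : ∀ x ∈ X, ℵ_ x < κ := by
    intro x hx
    refine lt_of_le_of_lt ?_ (Order.lt_succ_of_le (le_max_left _ _))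
    rw [aleph_le_aleph]
    exact hμ hx
  have hcode : ∀ p ∈ C, code p < typeLT Λ := by
    intro p hp
    have h1 : code p ≤ code (μ, μ) := by
      refine opow_le_opow_right omega0_pos ?_
      refine mul_le_mul' ?_ ?_
      · rw [omega_le_omega]; exact hμ (hC hp).2
      · gcongr
        exact hμ (hC hp).1
    refine h1.trans_lt ?_
    rw [type_toType, Cardinal.lt_ord]
    exact Order.lt_succ_of_le (le_max_right _ _)
  have hS : ∀ α : Ordinal.{u}, ∃ s : Set Λ, IsLowerSet s ∧ s.Nonempty ∧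
      (∀ i ∈ s, ∃ j ∈ s, i < j) ∧ (α ∈ X → Order.cof s = ℵ_ α) := by
    intro α
    by_cases hα : α ∈ X
    · have h1 : ω_ α < typeLT Λ := by
        rw [type_toType, ← Cardinal.ord_aleph, Cardinal.ord_lt_ord]
        exact hlt α hα
      set ξ : Λ := Ordinal.enum (α := Λ) (· < ·) ⟨ω_ α, h1⟩ with hξ
      have hty : typeLT (Iio ξ) = ω_ α := by
        rw [type_Iio_lt]
        exact typein_enum _ h1
      have hnm : NoMaxOrder (Iio ξ) := by
        rw [← isSuccPrelimit_type_lt_iff, hty]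
        exact (isSuccLimit_omega α).isSuccPrelimit
      refine ⟨Iio ξ, isLowerSet_Iio ξ, ?_, ?_, ?_⟩
      · by_contra hcon
        rw [not_nonempty_iff_eq_empty] at hcon
        have h0 : typeLT (Iio ξ) = 0 := by
          rw [type_eq_zero_iff_isEmpty, hcon]
          infer_instance
        rw [hty] at h0
        exact (omega_pos α).ne' h0
      · intro i hi
        obtain ⟨j, hj⟩ := exists_gt (⟨i, hi⟩ : Iio ξ)
        exact ⟨j.1, j.2, hj⟩
      · intro _
        rw [← Ordinal.cof_type, hty, (hreg α hα).cof_omega_eq]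
    · exact ⟨Set.univ, isLowerSet_univ, univ_nonempty,
        fun i _ => by obtain ⟨j, hj⟩ := exists_gt i; exact ⟨j, trivial, hj⟩,
        fun h => absurd h hα⟩
  choose S hSl hSne hSnm hScof using hS
  let w : (Ordinal.{u} × Ordinal.{u} → Prop) → Set (HC.K Λ) := fun P =>
    if h : ∃ p, P p then HC.V (S h.choose.1) else HC.V Set.univ
  have hw1 : ∀ P, (∃ p, P p) → ∃ p, P p ∧ w P = HC.V (S p.1) := by
    intro P h
    exact ⟨h.choose, h.choose_spec, by simp only [w, dif_pos h]⟩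
  have hw2 : ∀ P, (¬ ∃ p, P p) → w P = HC.V Set.univ := by
    intro P h
    simp only [w, dif_neg h]
  let W : Λ → Set (HC.K Λ) := fun ξ => w (fun p => p ∈ C ∧ HC.Col ξ (code p))
  have hWcase : ∀ ξ, (∃ p ∈ C, HC.Col ξ (code p) ∧ W ξ = HC.V (S p.1)) ∨
      ((¬ ∃ p ∈ C, HC.Col ξ (code p)) ∧ W ξ = HC.V Set.univ) := by
    intro ξ
    by_cases h : ∃ p, p ∈ C ∧ HC.Col ξ (code p)
    · obtain ⟨p, ⟨h1, h2⟩, h3⟩ := hw1 _ h
      exact Or.inl ⟨p, h1, h2, h3⟩
    · exact Or.inr ⟨h, hw2 _ h⟩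
  have hunm : ∀ i ∈ (Set.univ : Set Λ), ∃ j ∈ (Set.univ : Set Λ), i < j := by
    intro i _
    obtain ⟨j, hj⟩ := exists_gt i
    exact ⟨j, trivial, hj⟩
  have hVne : ∀ s : Set Λ, s.Nonempty → (HC.V s).Nonempty := by
    rintro s ⟨i, hi⟩
    exact ⟨_, HC.pre_mem_V hi⟩
  have hVuniv : HC.V (Set.univ : Set Λ) = Set.univ := by
    ext x
    simp only [mem_univ, iff_true]
    obtain ⟨i⟩ := hne
    obtain ⟨j, _, hj⟩ := x.both false i
    exact ⟨j, trivial, hj⟩
  have hgood : HC.Good W := by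
    refine ⟨?_, ?_, ?_, ?_, ?_⟩
    · intro ξ
      rcases hWcase ξ with ⟨p, _, _, h⟩ | ⟨_, h⟩
      · rw [h]; exact HC.V_lower (hSl _)
      · rw [h]; exact HC.V_lower isLowerSet_univ
    · intro ξ
      rcases hWcase ξ with ⟨p, _, _, h⟩ | ⟨_, h⟩
      · rw [h]; exact hVne _ (hSne _)
      · rw [h]; exact hVne _ univ_nonempty
    · intro ξ
      rcases hWcase ξ with ⟨p, _, _, h⟩ | ⟨_, h⟩
      · rw [h]; exact fun x hx => HC.V_noMax (hSl _) (hSnm _) hx
      · rw [h]; exact fun x hx => HC.V_noMax isLowerSet_univ hunm hx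
    · intro δ ε h1 h2
      rcases hWcase ε with ⟨p, _, h3, _⟩ | ⟨_, h⟩
      · exact absurd h3 (HC.Col.next h1 h2 (code_ne p))
      · rw [h, hVuniv]
    · intro γ δ
      refine ⟨HC.tl γ δ, fun ξ => ?_⟩
      show w _ = w _
      congr 1
      funext p
      rw [HC.Col.iff (HC.tl γ δ) ξ (code_ne p)]
  have hcofun : Order.cof (Set.univ : Set Λ) = κ := by
    exact (Order.cof_eq_of_isCofinal IsCofinal.univ).trans hcofΛ
  refine ⟨HC.T W, inferInstance, ?_, ?_, ?_, ?_⟩
  · choose y hy using hgood.ne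
    let δ : Λ := Classical.choice hne
    obtain ⟨z, _, hz⟩ := HC.T.exists_gt_cone hgood (δ := δ) (s := y) (x := HC.T.mk y hy)
      (fun j _ => rfl)
    exact ⟨_, _, hz.ne⟩
  · constructor
    intro x y hxy
    obtain ⟨i, hi1, hi2⟩ := HC.T.lt_iff.mp hxy
    obtain ⟨k, hk⟩ := exists_gt i
    obtain ⟨z, hz, hlt⟩ := HC.T.exists_gt_cone hgood (δ := k) (s := x.fn) (x := x)
      (fun j _ => rfl)
    refine ⟨z, hlt, HC.T.lt_iff.mpr ⟨i, ?_, ?_⟩⟩
    · intro j hj
      rw [hz j (hj.trans hk), hi1 j hj]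
    · rw [hz i hk]; exact hi2
  · exact fun a b c d hab hcd => HC.T.twoHomogeneous hgood a b c d hab hcd
  · ext p
    constructor
    · rintro ⟨⟨A, B, hcut, hA, hB⟩, hp⟩
      have hcut' : HC.IsCut A B := ⟨hcut.left_nonempty, hcut.right_nonempty, hcut.lt,
        hcut.no_max, hcut.no_min, hcut.cover⟩
      rcases HC.T.cut_character hgood hcut' with h | h | ⟨δ, h1, h2⟩
      · exfalso
        have h3 : ℵ_ p.1 = κ := hA.symm.trans (h.trans hcofΛ)
        exact (hlt p.1 hp.1).ne h3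
      · exfalso
        have h3 : ℵ_ p.2 = κ := hB.symm.trans (h.trans hcofΛ)
        exact (hlt p.2 hp.2).ne h3
      · rcases hWcase δ with ⟨q, hq, hcol, hWq⟩ | ⟨_, hWq⟩
        · rw [hWq, HC.cof_V (hSl _) (hSnm _), hScof _ (hC hq).1, hA] at h1
          rw [hcol.cof (code_ne q), cof_code (hreg _ (hC hq).2), hB] at h2
          have h3 : p = q := Prod.ext (alephInj h1) (alephInj h2)
          rw [h3]; exact hq
        · exfalso
          rw [hWq, HC.cof_V isLowerSet_univ hunm, hcofun, hA] at h1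
          exact (hlt p.1 hp.1).ne h1
    · intro hp
      refine ⟨?_, hC hp⟩
      obtain ⟨δ, hδ⟩ := HC.Col.exists (Λ := Λ) (exp_ne p) (hcode p hp)
      have hδ' : HC.Col δ (code p) := hδ
      obtain ⟨A, B, hcut, hA, hB⟩ := HC.T.exists_cut hgood δ hδ.nonempty
        (hδ'.limit (code_ne p))
      refine ⟨A, B, ⟨hcut.left_nonempty, hcut.right_nonempty, hcut.lt,
        hcut.no_max, hcut.no_min, hcut.cover⟩, ?_, ?_⟩
      · rcases hWcase δ with ⟨q, hq, hcol, hWq⟩ | ⟨hno, _⟩
        · have h1 : p = q := code_inj (hreg _ (hC hp).2) (hreg _ (hC hq).2) (hδ'.unique hcol)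
          rw [hA, hWq, HC.cof_V (hSl _) (hSnm _), hScof _ (hC hq).1, h1]
        · exact absurd ⟨p, hp, hδ'⟩ hno
      · rw [hB, hδ'.cof (code_ne p), cof_code (hreg _ (hC hp).2)]

end main

/-- Let `X` be a bounded set of ordinals such that `ω_x` is a regular cardinal for every `x ∈ X`.
The realizable sets are exactly all subsets of `X²`. -/
theorem result (X : Set Ordinal.{u}) (hX : BddAbove X) (hreg : ∀ x ∈ X, (ℵ_ x).IsRegular) :
    {C | Realizable X C} = 𝒫 (X ×ˢ X) := by
  ext C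
  constructor
  · rintro ⟨T, _, _, _, _, h⟩
    rw [mem_powerset_iff, ← h]
    exact inter_subset_right
  · intro hC
    exact main X C hX hreg hC

end Pool.Agent.Results.MP_e86704_lc.EverySetRealizable
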